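import Mathlib

/-!
# MP_bf9ef8_co: the inequality between `φ` of the power of the product and of the product of
the powers is false

A connected graph `G` on nine vertices with `φ(G^3 □ K_2^3) = 9` and `φ((G □ K_2)^3) = 8`.
-/

namespace Pool.Agent.Results.MP_bf9ef8_co.PowersOfProducts

open SimpleGraph

/-- The `k`-th power of a graph: two distinct vertices are adjacent iff their distance
(`⊤` between different components) is at most `k`. -/
def power {V : Type*} (G : SimpleGraph V) (k : ℕ) : SimpleGraph V where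
  Adj u v := u ≠ v ∧ G.edist u v ≤ k
  symm := ⟨fun _ _ h => ⟨h.1.symm, by rw [SimpleGraph.edist_comm]; exact h.2⟩⟩
  loopless := ⟨fun _ h => h.1 rfl⟩

/-- `c` is a b-colouring of `G` with `t` colours: it is proper, and every colour `i` is the
colour of a vertex which has a neighbour of every other colour. -/
def IsBColouring {V : Type*} (G : SimpleGraph V) {t : ℕ} (c : V → Fin t) : Prop :=
  (∀ u v, G.Adj u v → c u ≠ c v) ∧
    ∀ i : Fin t, ∃ v, c v = i ∧ ∀ j : Fin t, j ≠ i → ∃ w, G.Adj v w ∧ c w = j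

/-- The b-chromatic number of a (finite) graph. -/
noncomputable def bChromatic {V : Type*} (G : SimpleGraph V) : ℕ :=
  sSup {t : ℕ | ∃ c : V → Fin t, IsBColouring G c}

section general

variable {V : Type*} {G : SimpleGraph V}

theorem card_ge [Fintype V] {t : ℕ} {c : V → Fin t} (h : IsBColouring G c) :
    t ≤ Fintype.card V := by
  have : Function.Surjective c := fun i => by
    obtain ⟨v, hv, -⟩ := h.2 i
    exact ⟨v, hv⟩
  simpa using Fintype.card_le_of_surjective c this

theorem bChromatic_eq [Fintype V] {n : ℕ} {c : V → Fin n} (hc : IsBColouring G c)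
    (hub : ∀ (t : ℕ) (c : V → Fin t), IsBColouring G c → t ≤ n) : bChromatic G = n := by
  refine le_antisymm ?_ ?_
  · exact csSup_le ⟨n, c, hc⟩ (by rintro t ⟨d, hd⟩; exact hub t d hd)
  · refine le_csSup ⟨Fintype.card V, ?_⟩ ⟨c, hc⟩
    rintro t ⟨d, hd⟩
    exact card_ge hd

/-- A vertex `v` of a b-colouring which sees all other colours has the same colour as every
vertex `u` with `N(v) ⊆ N(u)`. -/
theorem dominated {t : ℕ} {c : V → Fin t} (hp : ∀ u v, G.Adj u v → c u ≠ c v) {v u : V}
    (hv : ∀ j : Fin t, j ≠ c v → ∃ w, G.Adj v w ∧ c w = j)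
    (hN : ∀ w, G.Adj v w → G.Adj w u) : c u = c v := by
  by_contra h
  obtain ⟨w, hw, hc⟩ := hv _ h
  exact hp _ _ (hN w hw) hc

theorem edist_eq_of_table {D : V → V → ℕ} (h0 : ∀ v, D v v = 0)
    (h1 : ∀ u w v, G.Adj u w → D u v ≤ D w v + 1)
    (h2 : ∀ u v, u ≠ v → ∃ w, G.Adj u w ∧ D w v + 1 = D u v) (u v : V) :
    G.edist u v = D u v := by
  refine le_antisymm ?_ ?_
  · have key : ∀ (n : ℕ) (u v : V), D u v = n → G.edist u v ≤ n := by
      intro n
      induction n with
      | zero =>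
        intro u v h
        have : u = v := by
          by_contra hne
          obtain ⟨w, -, hw⟩ := h2 u v hne
          omega
        subst this
        simp
      | succ n ih =>
        intro u v h
        have hne : u ≠ v := by
          rintro rfl
          rw [h0] at h
          omega
        obtain ⟨w, hw, hD⟩ := h2 u v hne
        have h3 : G.edist w v ≤ n := ih w v (by omega)
        have h4 : G.edist u w ≤ 1 := SimpleGraph.edist_le_one_iff_adj_or_eq.mpr (Or.inl hw)
        calc G.edist u v ≤ G.edist u w + G.edist w v := SimpleGraph.edist_triangle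
          _ ≤ 1 + n := add_le_add h4 h3
          _ = ((n + 1 : ℕ) : ℕ∞) := by push_cast; ring
    exact key _ u v rfl
  · by_cases ht : G.edist u v = ⊤
    · rw [ht]; exact le_top
    · obtain ⟨p, hp⟩ := SimpleGraph.exists_walk_of_edist_ne_top ht
      rw [← hp]
      have key : ∀ {u v : V} (p : G.Walk u v), D u v ≤ p.length := by
        intro u v p
        induction p with
        | nil => rw [h0]; simp
        | cons h p ih =>
          have := h1 _ _ ‹_› h
          rw [SimpleGraph.Walk.length_cons]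
          omega
      exact_mod_cast key p

end general

/-! ### The example -/

/-- Adjacency matrix. -/
def adjT : Fin 9 → Fin 9 → Bool := fun u v =>
  (![![false, false, true, false, true, false, false, false, true],
    ![false, false, false, true, true, false, false, false, true],
    ![true, false, false, false, false, false, false, false, false],
    ![false, true, false, false, false, false, false, false, false],
    ![true, true, false, false, false, true, false, false, false],
    ![false, false, false, false, true, false, true, false, false],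
    ![false, false, false, false, false, true, false, true, false],
    ![false, false, false, false, false, false, true, false, true],
    ![true, true, false, false, false, false, false, true, false]] : Fin 9 → Fin 9 → Bool) u v

/-- The graph: a 6-cycle `0,4,5,6,7,8` with a twin `1` of the vertex `0` and two pendant
vertices `2` (at `0`) and `3` (at `1`). -/
def G₀ : SimpleGraph (Fin 9) where
  Adj u v := adjT u v = true
  symm := ⟨by decide⟩
  loopless := ⟨by decide⟩

/-- Distance matrix. -/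
def distT : Fin 9 → Fin 9 → ℕ := fun u v =>
  (![![0, 2, 1, 3, 1, 2, 3, 2, 1],
    ![2, 0, 3, 1, 1, 2, 3, 2, 1],
    ![1, 3, 0, 4, 2, 3, 4, 3, 2],
    ![3, 1, 4, 0, 2, 3, 4, 3, 2],
    ![1, 1, 2, 2, 0, 1, 2, 3, 2],
    ![2, 2, 3, 3, 1, 0, 1, 2, 3],
    ![3, 3, 4, 4, 2, 1, 0, 1, 2],
    ![2, 2, 3, 3, 3, 2, 1, 0, 1],
    ![1, 1, 2, 2, 2, 3, 2, 1, 0]] : Fin 9 → Fin 9 → ℕ) u v

instance : DecidableRel G₀.Adj := fun u v => inferInstanceAs (Decidable (adjT u v = true))

theorem edist_G₀ (u v : Fin 9) : G₀.edist u v = distT u v := by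
  refine edist_eq_of_table (by decide) ?_ ?_ u v
  · decide
  · decide

/-- Adjacency in `P = (G₀ □ K₂)^3`. -/
def adjL (u v : Fin 9 × Fin 2) : Bool :=
  u ≠ v && distT u.1 v.1 + (if u.2 = v.2 then 0 else 1) ≤ 3

/-- Adjacency in `G₀^3 □ K₂^3`. -/
def adjR (u v : Fin 9 × Fin 2) : Bool :=
  u ≠ v && (u.1 = v.1 || (u.2 = v.2 && distT u.1 v.1 ≤ 3))

theorem adjL_iff (u v : Fin 9 × Fin 2) :
    (power (G₀ □ (⊤ : SimpleGraph (Fin 2))) 3).Adj u v ↔ adjL u v = true := by
  have h : (power (G₀ □ (⊤ : SimpleGraph (Fin 2))) 3).Adj u v ↔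
      u ≠ v ∧ (G₀ □ (⊤ : SimpleGraph (Fin 2))).edist u v ≤ (3 : ℕ) := Iff.rfl
  rw [h, SimpleGraph.edist_boxProd, edist_G₀, SimpleGraph.edist_top]
  unfold adjL
  rw [Bool.and_eq_true, decide_eq_true_iff, decide_eq_true_iff]
  refine and_congr Iff.rfl ?_
  split_ifs
  · norm_cast
  · norm_cast

theorem adjR_iff (u v : Fin 9 × Fin 2) :
    (power G₀ 3 □ power (⊤ : SimpleGraph (Fin 2)) 3).Adj u v ↔ adjR u v = true := by
  have h1 : ∀ a b, (power G₀ 3).Adj a b ↔ a ≠ b ∧ G₀.edist a b ≤ (3 : ℕ) := fun _ _ => Iff.rfl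
  have h2 : ∀ a b, (power (⊤ : SimpleGraph (Fin 2)) 3).Adj a b ↔
      a ≠ b ∧ (⊤ : SimpleGraph (Fin 2)).edist a b ≤ (3 : ℕ) := fun _ _ => Iff.rfl
  rw [SimpleGraph.boxProd_adj, h1, h2, edist_G₀, SimpleGraph.edist_top]
  obtain ⟨u1, u2⟩ := u
  obtain ⟨v1, v2⟩ := v
  simp only [adjR, Bool.and_eq_true, decide_eq_true_iff, Bool.or_eq_true, ne_eq,
    Prod.mk.injEq]
  by_cases hu : u1 = v1 <;> by_cases hv : u2 = v2 <;> simp [hu, hv, -Nat.cast_ofNat]

/-- The colouring with nine colours of `G₀^3 □ K₂^3`. -/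
def colR : Fin 9 × Fin 2 → Fin 9 := fun v =>
  (![![0, 1], ![2, 5], ![4, 0], ![1, 3], ![3, 4], ![5, 6], ![6, 2], ![8, 7], ![7, 8]] :
    Fin 9 → Fin 2 → Fin 9) v.1 v.2

/-- The colouring with eight colours of `P = (G₀ □ K₂)^3`. -/
def colL : Fin 9 × Fin 2 → Fin 8 := fun v =>
  (![![0, 1], ![2, 3], ![3, 2], ![1, 0], ![4, 5], ![6, 7], ![1, 0], ![5, 4], ![7, 6]] :
    Fin 9 → Fin 2 → Fin 8) v.1 v.2

theorem colR_b : IsBColouring (power G₀ 3 □ power (⊤ : SimpleGraph (Fin 2)) 3) colR := by
  constructor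
  · simp only [adjR_iff]
    decide
  · simp only [adjR_iff]
    decide

theorem colL_b : IsBColouring (power (G₀ □ (⊤ : SimpleGraph (Fin 2))) 3) colL := by
  constructor
  · simp only [adjL_iff]
    decide
  · simp only [adjL_iff]
    decide

/-- The other copy of `K₂`. -/
def flip (i : Fin 2) : Fin 2 := 1 - i

/-- The eight vertices among which every colour of a b-colouring of `P = (G₀ □ K₂)^3` occurs. -/
def S : Fin 8 → Fin 9 × Fin 2 :=
  ![(0, 0), (0, 1), (1, 0), (1, 1), (5, 0), (5, 1), (7, 0), (7, 1)]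

theorem S_mem (i : Fin 2) : (∃ k, S k = (0, i)) ∧ (∃ k, S k = (1, i)) ∧ (∃ k, S k = (5, i)) ∧
    (∃ k, S k = (7, i)) := by
  revert i
  decide

theorem dom_facts (i : Fin 2) :
    (∀ w, adjL (6, i) w = true → adjL w (0, flip i) = true) ∧
    (∀ w, adjL (2, i) w = true → adjL w (1, flip i) = true) ∧
    (∀ w, adjL (3, i) w = true → adjL w (0, flip i) = true) := by
  revert i
  decide

theorem sing_facts (i : Fin 2) :
    (∀ x, x ≠ (4, i) → x ≠ (7, flip i) → adjL (4, i) x = true) ∧
    (∀ x, x ≠ (8, i) → x ≠ (5, flip i) → adjL (8, i) x = true) ∧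
    (∀ w, adjL w (4, i) = true → adjL w (7, flip i) = false → w = (2, i) ∨ w = (3, i)) ∧
    (∀ w, adjL w (8, i) = true → adjL w (5, flip i) = false → w = (2, i) ∨ w = (3, i)) ∧
    adjL (0, flip i) (7, flip i) = true ∧ adjL (1, flip i) (7, flip i) = true ∧
    adjL (0, flip i) (5, flip i) = true ∧ adjL (1, flip i) (5, flip i) = true := by
  revert i
  decide

theorem cases_L (v : Fin 9 × Fin 2) : (∃ k, S k = v) ∨ (∃ i, v = (6, i)) ∨ (∃ i, v = (2, i)) ∨
    (∃ i, v = (3, i)) ∨ (∃ i, v = (4, i)) ∨ (∃ i, v = (8, i)) := by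
  revert v
  decide

/-- Every b-colouring of `P = (G₀ □ K₂)^3` has at most eight colours. -/
theorem upper (t : ℕ) (c : Fin 9 × Fin 2 → Fin t)
    (hc : IsBColouring (power (G₀ □ (⊤ : SimpleGraph (Fin 2))) 3) c) : t ≤ 8 := by
  obtain ⟨hp, hb⟩ := hc
  have hdom : ∀ v u : Fin 9 × Fin 2,
      (∀ j : Fin t, j ≠ c v →
        ∃ w, (power (G₀ □ (⊤ : SimpleGraph (Fin 2))) 3).Adj v w ∧ c w = j) →
      (∀ w, adjL v w = true → adjL w u = true) → c u = c v := by
    intro v u hv hN
    refine dominated hp hv fun w hw => ?_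
    rw [adjL_iff] at hw ⊢
    exact hN w hw
  -- a pair x = (4,i), y = (7,1-i), or x = (8,i), y = (5,1-i)
  have hsing : ∀ (i : Fin 2) (x y : Fin 9 × Fin 2),
      (∀ z, z ≠ x → z ≠ y → adjL x z = true) →
      (∀ w, adjL w x = true → adjL w y = false → w = (2, i) ∨ w = (3, i)) →
      adjL (0, flip i) y = true → adjL (1, flip i) y = true → c y = c x := by
    intro i x y h1 h2 h3 h4
    by_contra hne
    obtain ⟨w, hw, hall⟩ := hb (c y)
    -- `w` is adjacent to `x`
    have hwx : adjL w x = true := by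
      obtain ⟨z, hz, hcz⟩ := hall (c x) (Ne.symm hne)
      by_cases hzx : z = x
      · subst hzx
        rwa [adjL_iff] at hz
      · exfalso
        have hzy : z ≠ y := by
          rintro rfl
          exact hne hcz
        have := h1 z hzx hzy
        rw [← adjL_iff] at this
        exact hp _ _ this hcz.symm
    have hwy : adjL w y = false := by
      by_contra h
      rw [Bool.not_eq_false, ← adjL_iff] at h
      exact hp _ _ h hw
    have hall' : ∀ j : Fin t, j ≠ c w →
        ∃ w', (power (G₀ □ (⊤ : SimpleGraph (Fin 2))) 3).Adj w w' ∧ c w' = j := by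
      rw [hw]; exact hall
    rcases h2 w hwx hwy with rfl | rfl
    · have h5 := hdom _ _ hall' (dom_facts i).2.1
      rw [← adjL_iff] at h4
      exact hp _ _ h4 (h5.trans hw)
    · have h5 := hdom _ _ hall' (dom_facts i).2.2
      rw [← adjL_iff] at h3
      exact hp _ _ h3 (h5.trans hw)
  have hsurj : Function.Surjective fun k : Fin 8 => c (S k) := by
    intro a
    obtain ⟨v, rfl, hv⟩ := hb a
    rcases cases_L v with ⟨k, hk⟩ | ⟨i, rfl⟩ | ⟨i, rfl⟩ | ⟨i, rfl⟩ | ⟨i, rfl⟩ | ⟨i, rfl⟩
    · exact ⟨k, by simp only [hk]⟩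
    · obtain ⟨k, hk⟩ := (S_mem (flip i)).1
      exact ⟨k, by simp only [hk]; exact hdom _ _ hv (dom_facts i).1⟩
    · obtain ⟨k, hk⟩ := (S_mem (flip i)).2.1
      exact ⟨k, by simp only [hk]; exact hdom _ _ hv (dom_facts i).2.1⟩
    · obtain ⟨k, hk⟩ := (S_mem (flip i)).1
      exact ⟨k, by simp only [hk]; exact hdom _ _ hv (dom_facts i).2.2⟩
    · obtain ⟨k, hk⟩ := (S_mem (flip i)).2.2.2
      obtain ⟨s1, s2, s3, s4, s5, s6, s7, s8⟩ := sing_facts i
      refine ⟨k, ?_⟩
      simp only [hk]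
      exact hsing i _ _ s1 s3 s5 s6
    · obtain ⟨k, hk⟩ := (S_mem (flip i)).2.2.1
      obtain ⟨s1, s2, s3, s4, s5, s6, s7, s8⟩ := sing_facts i
      refine ⟨k, ?_⟩
      simp only [hk]
      exact hsing i _ _ s2 s4 s7 s8
  simpa using Fintype.card_le_of_surjective _ hsurj

theorem G₀_connected : G₀.Connected := by
  refine ⟨fun u v => ?_⟩
  rw [← SimpleGraph.edist_ne_top_iff_reachable, edist_G₀]
  exact ENat.natCast_ne_top _

theorem valueL : bChromatic (power (G₀ □ (⊤ : SimpleGraph (Fin 2))) 3) = 8 :=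
  bChromatic_eq colL_b upper

theorem boundR : 9 ≤ bChromatic (power G₀ 3 □ power (⊤ : SimpleGraph (Fin 2)) 3) := by
  refine le_csSup ⟨Fintype.card (Fin 9 × Fin 2), ?_⟩ ⟨colR, colR_b⟩
  rintro t ⟨d, hd⟩
  exact card_ge hd

/-- There are connected graphs `G`, `H` on nine and two vertices with `φ((G □ H)^3) = 8` and
`φ(G^3 □ H^3) ≥ 9`. Hence it is not true that `φ(G^k □ H^k) ≤ φ((G □ H)^k)` for all finite
graphs `G`, `H` and all `k ≥ 1`. -/
theorem result :
    (∃ (G : SimpleGraph (Fin 9)) (H : SimpleGraph (Fin 2)), G.Connected ∧ H.Connected ∧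
      bChromatic (power (G □ H) 3) = 8 ∧ 9 ≤ bChromatic (power G 3 □ power H 3)) ∧
    ¬ ∀ (V W : Type) [Finite V] [Finite W] (G : SimpleGraph V) (H : SimpleGraph W) (k : ℕ),
      1 ≤ k → bChromatic (power G k □ power H k) ≤ bChromatic (power (G □ H) k) := by
  refine ⟨⟨G₀, ⊤, G₀_connected, SimpleGraph.connected_top, valueL, boundR⟩, fun h => ?_⟩
  have h1 := h (Fin 9) (Fin 2) G₀ ⊤ 3 (by norm_num)
  rw [valueL] at h1
  have h2 := boundR
  omega

end Pool.Agent.Results.MP_bf9ef8_co.PowersOfProducts
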